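import Mathlib

/-!
# Piece G:CF of the project GEN (helper285), first part: polynomials modulo primes
-/

set_option autoImplicit false

namespace Run7.h212.G

open Finset Polynomial

/-- the difference of two translates of a polynomial -/
noncomputable def dif (g : ℤ[X]) (i j : ℤ) : ℤ[X] := taylor i g - taylor j g

lemma dif_eval (g : ℤ[X]) (i j m : ℤ) : (dif g i j).eval m = g.eval (m + i) - g.eval (m + j) := by
  unfold dif
  rw [eval_sub, taylor_eval, taylor_eval]

lemma eval_deg_one (P : ℤ[X]) (h : P.natDegree ≤ 1) (r : ℤ) : P.eval r = P.coeff 0 + P.coeff 1 * r := by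
  rw [eval_eq_sum_range' (Nat.lt_succ_of_le h)]
  simp [sum_range_succ]

lemma dif_coeff_hi (g : ℤ[X]) (i j : ℤ) (n : ℕ) (hn : g.natDegree ≤ n) : (dif g i j).coeff n = 0 := by
  unfold dif
  rw [coeff_sub, taylor_coeff, taylor_coeff]
  have h1 : (hasseDeriv n g).natDegree = 0 := by
    have := natDegree_hasseDeriv_le g n
    omega
  rw [eq_C_of_natDegree_eq_zero h1, eval_C, eval_C, sub_self]

lemma dif_coeff (g : ℤ[X]) (i j : ℤ) (hd : 1 ≤ g.natDegree) :
    (dif g i j).coeff (g.natDegree - 1) = g.natDegree * g.leadingCoeff * (i - j) := by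
  unfold dif
  rw [coeff_sub, taylor_coeff, taylor_coeff]
  have h1 : (hasseDeriv (g.natDegree - 1) g).natDegree ≤ 1 := by
    have := natDegree_hasseDeriv_le g (g.natDegree - 1)
    omega
  rw [eval_deg_one _ h1, eval_deg_one _ h1, hasseDeriv_coeff, hasseDeriv_coeff]
  have h2 : 1 + (g.natDegree - 1) = g.natDegree := by omega
  rw [h2]
  have h3 : g.natDegree.choose (g.natDegree - 1) = g.natDegree := by
    rw [Nat.choose_symm (by omega : 1 ≤ g.natDegree), Nat.choose_one_right]
  rw [h3]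
  unfold leadingCoeff
  ring

lemma card_root (p : ℕ) (hp : p.Prime) (Q : ℤ[X]) (e : ℕ) (hQ : Q.natDegree ≤ e) (hc : ¬ (p : ℤ) ∣ Q.coeff e) :
    ((range p).filter (fun r : ℕ => (p : ℤ) ∣ Q.eval (r : ℤ))).card ≤ e := by
  have : Fact p.Prime := ⟨hp⟩
  classical
  have h0 : Q.map (Int.castRingHom (ZMod p)) ≠ 0 := by
    intro h
    apply hc
    have h1 : (Q.map (Int.castRingHom (ZMod p))).coeff e = 0 := by rw [h, coeff_zero]
    rw [coeff_map, eq_intCast, ZMod.intCast_zmod_eq_zero_iff_dvd] at h1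
    exact h1
  have h1 : ((range p).filter (fun r : ℕ => (p : ℤ) ∣ Q.eval (r : ℤ))).card ≤
      (Q.map (Int.castRingHom (ZMod p))).roots.toFinset.card := by
    apply card_le_card_of_injOn (fun r : ℕ => (r : ZMod p))
    · intro r hr
      rw [mem_coe, mem_filter] at hr
      rw [mem_coe, Multiset.mem_toFinset, mem_roots h0, IsRoot]
      have h2 := (ZMod.intCast_zmod_eq_zero_iff_dvd (Q.eval (r : ℤ)) p).2 hr.2
      show eval (r : ZMod p) _ = 0
      rw [← h2, ← Int.cast_natCast r, ← eq_intCast (Int.castRingHom (ZMod p)) (r : ℤ), eval_map, eval₂_at_apply, eq_intCast]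
    · intro a ha b hb hab
      rw [mem_coe, mem_filter, mem_range] at ha hb
      have h3 : (a : ZMod p) = (b : ZMod p) := hab
      rw [ZMod.natCast_eq_natCast_iff] at h3
      exact Nat.ModEq.eq_of_lt_of_lt h3 ha.1 hb.1
  refine h1.trans ((Multiset.toFinset_card_le _).trans ((card_roots' _).trans ?_))
  exact (natDegree_map_le).trans hQ

lemma eval_mod (p : ℕ) (Q : ℤ[X]) (m r : ℕ) (h : m ≡ r [MOD p]) (hr : (p : ℤ) ∣ Q.eval (m : ℤ)) :
    (p : ℤ) ∣ Q.eval (r : ℤ) := by
  have h1 : (p : ℤ) ∣ (m : ℤ) - r := by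
    have := (Nat.modEq_iff_dvd).1 h.symm
    exact this
  have h2 := h1.trans (sub_dvd_eval_sub (m : ℤ) (r : ℤ) Q)
  have h3 := dvd_sub hr h2
  rwa [sub_sub_cancel] at h3

end Run7.h212.G
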