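import Pool.Agent.Run7.h285.G.Stm
import Pool.Agent.Run7.h382.S.CF
import Pool.Agent.Run7.h212.G.Pol

/-!
# Piece G:CF of the project GEN (helper285): the mean over `m` of the correlations of the differences of two sieve weights at the
values of an arbitrary polynomial of degree at least two (adaptation of `Run7/h382/S/{CFa,CF}.lean`)
-/

set_option autoImplicit false

namespace Run7.h212.G

open Finset Polynomial
open Run7.h285.G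
open Run7.h285.S (ll)
open Run7.h382.S
open Pool.Agent.W41 (JJ JJ_small)
open Pool.Agent.H373R2.T7 (pz Vz lamz mem_pz Vz_ge Vz_pos Vz_le_one card_pz_le)
open Pool.Agent.TH892.OW (card_pf Vz_log evt_ll evt_ll_ge params_z one_le_Vz_inv Vz_anti)
open Pool.Agent.H442R2.EHI (evt_log_pow evt_log_ge)

lemma gen_eq (X z w : ℕ) (A B : ℤ) :
    ∑ c ∈ Icc (-(X : ℤ)) X, (ll z (A + c) - ll w (A + c)) * (ll z (B + c) - ll w (B + c)) =
    (Vz z)⁻¹ * (Vz z)⁻¹ * NN A B X z z - (Vz z)⁻¹ * (Vz w)⁻¹ * NN A B X z w -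
      (Vz w)⁻¹ * (Vz z)⁻¹ * NN A B X w z + (Vz w)⁻¹ * (Vz w)⁻¹ * NN A B X w w := by
  rw [← mix, ← mix, ← mix, ← mix, ← sum_sub_distrib, ← sum_sub_distrib, ← sum_add_distrib]
  refine sum_congr rfl fun c _ => ?_
  ring

/-- one correlation -/
theorem cor_gen : ∃ C0 K0 : ℕ, 1 ≤ C0 ∧ 1 ≤ K0 ∧ ∀ b : ℕ, C0 ≤ b → ∀ w z : ℕ, 2 ≤ w → w ≤ z → ∀ (X : ℕ) (A B : ℤ),
    |∑ c ∈ Icc (-(X : ℤ)) X, (ll z (A + c) - ll w (A + c)) * (ll z (B + c) - ll w (B + c))| ≤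
      (2 * X + 1) * ((Vz z)⁻¹ ^ 3 * sg (A - B) w z) +
      4 * (Vz z)⁻¹ ^ 2 * ((1 / 2 : ℝ) ^ b * (2 * X + 1) +
        ((JJ z : ℝ) + 2) * ((z : ℝ) ^ (2 * (C0 * b)) * (K0 * (z : ℝ) ^ (2 * (C0 * b))))) := by
  obtain ⟨C0, K0, hC0, hK0, hnn⟩ := nn_est
  refine ⟨C0, K0, hC0, hK0, fun b hb w z hw hwz X A B => ?_⟩
  set Er := (1 / 2 : ℝ) ^ b * (2 * X + 1) +
        ((JJ z : ℝ) + 2) * ((z : ℝ) ^ (2 * (C0 * b)) * (K0 * (z : ℝ) ^ (2 * (C0 * b)))) with hEr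
  have h1 := hnn b hb z (by omega) X A B z z le_rfl le_rfl
  have h2 := hnn b hb z (by omega) X A B z w le_rfl hwz
  have h3 := hnn b hb z (by omega) X A B w z hwz le_rfl
  have h4 := hnn b hb z (by omega) X A B w w hwz hwz
  rw [← hEr] at h1 h2 h3 h4
  have hm := main_eq (A - B) hwz
  have hd := Adiff (A - B) hw hwz
  have hz0 : 0 < (Vz z)⁻¹ := inv_pos.2 (Vz_pos z)
  have hw0 : 0 < (Vz w)⁻¹ := inv_pos.2 (Vz_pos w)
  have hwz' : (Vz w)⁻¹ ≤ (Vz z)⁻¹ := Vz_anti hwz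
  have hEr0 : 0 ≤ Er := (abs_nonneg _).trans h1
  rw [gen_eq]
  have e : (Vz z)⁻¹ * (Vz z)⁻¹ * (NN A B X z z : ℝ) - (Vz z)⁻¹ * (Vz w)⁻¹ * NN A B X z w -
      (Vz w)⁻¹ * (Vz z)⁻¹ * NN A B X w z + (Vz w)⁻¹ * (Vz w)⁻¹ * NN A B X w w =
      (2 * X + 1) * ((Vz z)⁻¹ ^ 2 * Sg (A - B) z - (Vz w)⁻¹ ^ 2 * Sg (A - B) w) +
      (Vz z)⁻¹ * (Vz z)⁻¹ * (NN A B X z z - (2 * X + 1) * Pi0 (A - B) z z z) -
      (Vz z)⁻¹ * (Vz w)⁻¹ * (NN A B X z w - (2 * X + 1) * Pi0 (A - B) z z w) -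
      (Vz w)⁻¹ * (Vz z)⁻¹ * (NN A B X w z - (2 * X + 1) * Pi0 (A - B) z w z) +
      (Vz w)⁻¹ * (Vz w)⁻¹ * (NN A B X w w - (2 * X + 1) * Pi0 (A - B) z w w) := by
    rw [← hm]; ring
  rw [e]
  have k1 : |(Vz z)⁻¹ * (Vz z)⁻¹ * (NN A B X z z - (2 * X + 1) * Pi0 (A - B) z z z)| ≤ (Vz z)⁻¹ ^ 2 * Er := by
    rw [abs_mul, abs_of_pos (by positivity), sq]
    exact mul_le_mul_of_nonneg_left h1 (by positivity)
  have k2 : |(Vz z)⁻¹ * (Vz w)⁻¹ * (NN A B X z w - (2 * X + 1) * Pi0 (A - B) z z w)| ≤ (Vz z)⁻¹ ^ 2 * Er := by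
    rw [abs_mul, abs_of_pos (by positivity), sq]
    exact mul_le_mul (mul_le_mul_of_nonneg_left hwz' hz0.le) h2 (abs_nonneg _) (by positivity)
  have k3 : |(Vz w)⁻¹ * (Vz z)⁻¹ * (NN A B X w z - (2 * X + 1) * Pi0 (A - B) z w z)| ≤ (Vz z)⁻¹ ^ 2 * Er := by
    rw [abs_mul, abs_of_pos (by positivity), sq]
    exact mul_le_mul (mul_le_mul_of_nonneg_right hwz' hz0.le) h3 (abs_nonneg _) (by positivity)
  have k4 : |(Vz w)⁻¹ * (Vz w)⁻¹ * (NN A B X w w - (2 * X + 1) * Pi0 (A - B) z w w)| ≤ (Vz z)⁻¹ ^ 2 * Er := by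
    rw [abs_mul, abs_of_pos (by positivity), sq]
    exact mul_le_mul (mul_le_mul hwz' hwz' hw0.le hz0.le) h4 (abs_nonneg _) (by positivity)
  have k0 : |(2 * (X : ℝ) + 1) * ((Vz z)⁻¹ ^ 2 * Sg (A - B) z - (Vz w)⁻¹ ^ 2 * Sg (A - B) w)| ≤
      (2 * X + 1) * ((Vz z)⁻¹ ^ 3 * sg (A - B) w z) := by
    rw [abs_mul, abs_of_nonneg (by positivity)]
    exact mul_le_mul_of_nonneg_left hd (by positivity)
  rw [abs_le] at k0 k1 k2 k3 k4 ⊢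
  constructor <;> linarith [k0.1, k0.2, k1.1, k1.2, k2.1, k2.2, k3.1, k3.2, k4.1, k4.2]

/-- the number of the `m` in an interval with `p | Q(m)` -/
lemma cnt_poly (p : ℕ) (hp : p.Prime) (Q : ℤ[X]) (e : ℕ) (hQ : Q.natDegree ≤ e) (hc : ¬ (p : ℤ) ∣ Q.coeff e) (m₀ M : ℕ) :
    (#((Ioc m₀ (m₀ + M)).filter (fun m : ℕ => (p : ℤ) ∣ Q.eval (m : ℤ))) : ℝ) ≤ e * ((M : ℝ) / p + 1) := by
  classical
  set R := (range p).filter (fun r : ℕ => (p : ℤ) ∣ Q.eval (r : ℤ)) with hR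
  have h1 : #((Ioc m₀ (m₀ + M)).filter (fun m : ℕ => (p : ℤ) ∣ Q.eval (m : ℤ))) =
      ∑ r ∈ R, #(((Ioc m₀ (m₀ + M)).filter (fun m : ℕ => (p : ℤ) ∣ Q.eval (m : ℤ))).filter (fun m => m % p = r)) := by
    apply card_eq_sum_card_fiberwise
    intro m hm
    rw [mem_coe, mem_filter] at hm
    rw [mem_coe, hR, mem_filter, mem_range]
    exact ⟨Nat.mod_lt _ hp.pos, eval_mod p Q m (m % p) (Nat.mod_modEq m p).symm hm.2⟩
  rw [h1]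
  push_cast
  have h2 : ∀ r ∈ R, (#(((Ioc m₀ (m₀ + M)).filter (fun m : ℕ => (p : ℤ) ∣ Q.eval (m : ℤ))).filter (fun m => m % p = r)) : ℝ) ≤
      (M : ℝ) / p + 1 := by
    intro r _
    rw [filter_filter]
    refine cnt_ap p hp.pos m₀ M _ ?_
    intro m m' h h'
    show m % p = m' % p
    rw [h.2, h'.2]
  refine (sum_le_sum h2).trans ?_
  rw [sum_const, nsmul_eq_mul]
  have h3 : (#R : ℝ) ≤ e := by exact_mod_cast card_root p hp Q e hQ hc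
  exact mul_le_mul_of_nonneg_right h3 (by positivity)

lemma sum_sg' (w z : ℕ) (hw : 2 ≤ w) (hwz : w ≤ z) (F : ℕ → ℤ) (Q : ℤ[X]) (e : ℕ) (hQ : Q.natDegree ≤ e) (hc : Q.coeff e ≠ 0)
    (hF : ∀ m : ℕ, F m = Q.eval (m : ℤ)) (k : ℕ) (hk : Nat.log 2 (Q.coeff e).natAbs ≤ k) (m₀ M : ℕ) :
    ∑ m ∈ Ioc m₀ (m₀ + M), sg (F m) w z ≤ M * (4 + 2 * e + k) / w + e * z := by
  classical
  unfold sg
  rw [sum_comm]
  have hwr : (2 : ℝ) ≤ w := by exact_mod_cast hw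
  have key : ∀ p ∈ TT w z, ∑ m ∈ Ioc m₀ (m₀ + M), (1 / ((p : ℝ) - 1) ^ 2 +
      if (p : ℤ) ∣ F m then 1 / ((p : ℝ) - 1) else 0) ≤
      (4 + 2 * e) * M * ((p : ℝ) ^ 2)⁻¹ + (if (p : ℤ) ∣ Q.coeff e then (M : ℝ) / w else 0) + e := by
    intro p hp
    have hpp := (mem_TT.1 hp).1.2
    have hwp := (mem_TT.1 hp).2
    have hp3 : 3 ≤ p := by omega
    have hp3r : (3 : ℝ) ≤ p := by exact_mod_cast hp3
    have hwpr : (w : ℝ) + 1 ≤ p := by exact_mod_cast hwp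
    have hp1 : (0 : ℝ) < (p : ℝ) - 1 := by linarith
    have hM0 : (0 : ℝ) ≤ M := Nat.cast_nonneg _
    have he0 : (0 : ℝ) ≤ e := Nat.cast_nonneg _
    simp_rw [hF]
    rw [sum_add_distrib, sum_const, Nat.card_Ioc, nsmul_eq_mul, ← sum_filter, sum_const, nsmul_eq_mul,
      show m₀ + M - m₀ = M by omega]
    have a1 : 1 / ((p : ℝ) - 1) ≤ 2 * (p : ℝ)⁻¹ := by
      rw [← div_eq_mul_inv, div_le_div_iff₀ hp1 (by linarith)]; linarith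
    have a2 : 1 / ((p : ℝ) - 1) ^ 2 ≤ 4 * ((p : ℝ) ^ 2)⁻¹ := by
      rw [← div_eq_mul_inv, div_le_div_iff₀ (by positivity) (by positivity)]; nlinarith
    have a3 : 1 / ((p : ℝ) - 1) ≤ 1 := by
      rw [div_le_one hp1]; linarith
    have a4 : 1 / ((p : ℝ) - 1) ≤ 1 / w := one_div_le_one_div_of_le (by linarith) (by linarith)
    have a5 : (M : ℝ) * (1 / ((p : ℝ) - 1) ^ 2) ≤ 4 * M * ((p : ℝ) ^ 2)⁻¹ := by
      have := mul_le_mul_of_nonneg_left a2 hM0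
      linarith
    have a6 : 0 < 1 / ((p : ℝ) - 1) := by positivity
    have a7 : (0 : ℝ) ≤ 2 * e * M * ((p : ℝ) ^ 2)⁻¹ := by positivity
    split_ifs with hd
    · have h1 : (#((Ioc m₀ (m₀ + M)).filter (fun m : ℕ => (p : ℤ) ∣ Q.eval (m : ℤ))) : ℝ) ≤ M := by
        have := card_filter_le (Ioc m₀ (m₀ + M)) (fun m : ℕ => (p : ℤ) ∣ Q.eval (m : ℤ))
        rw [Nat.card_Ioc, show m₀ + M - m₀ = M by omega] at this
        exact_mod_cast this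
      have h2 : (#((Ioc m₀ (m₀ + M)).filter (fun m : ℕ => (p : ℤ) ∣ Q.eval (m : ℤ))) : ℝ) *
          (1 / ((p : ℝ) - 1)) ≤ M * (1 / w) := mul_le_mul h1 a4 a6.le hM0
      have h3 : (M : ℝ) * (1 / w) = M / w := by ring
      have h4 : (4 + 2 * (e : ℝ)) * M * ((p : ℝ) ^ 2)⁻¹ = 4 * M * ((p : ℝ) ^ 2)⁻¹ + 2 * e * M * ((p : ℝ) ^ 2)⁻¹ := by ring
      linarith
    · have h1 := cnt_poly p hpp Q e hQ hd m₀ M
      have h2 : (#((Ioc m₀ (m₀ + M)).filter (fun m : ℕ => (p : ℤ) ∣ Q.eval (m : ℤ))) : ℝ) *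
          (1 / ((p : ℝ) - 1)) ≤ (e * ((M : ℝ) / p + 1)) * (1 / ((p : ℝ) - 1)) := mul_le_mul_of_nonneg_right h1 a6.le
      have h3 : e * ((M : ℝ) / p * (1 / ((p : ℝ) - 1))) ≤ 2 * e * M * ((p : ℝ) ^ 2)⁻¹ := by
        calc e * ((M : ℝ) / p * (1 / ((p : ℝ) - 1))) ≤ e * ((M : ℝ) / p * (2 * (p : ℝ)⁻¹)) :=
              mul_le_mul_of_nonneg_left (mul_le_mul_of_nonneg_left a1 (by positivity)) he0
          _ = _ := by rw [div_eq_mul_inv, sq, mul_inv]; ring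
      have h4 : (4 + 2 * (e : ℝ)) * M * ((p : ℝ) ^ 2)⁻¹ = 4 * M * ((p : ℝ) ^ 2)⁻¹ + 2 * e * M * ((p : ℝ) ^ 2)⁻¹ := by ring
      have h5 : (e * ((M : ℝ) / p + 1)) * (1 / ((p : ℝ) - 1)) = e * ((M : ℝ) / p * (1 / ((p : ℝ) - 1))) + e * (1 / ((p : ℝ) - 1)) := by
        ring
      have h6 : (e : ℝ) * (1 / ((p : ℝ) - 1)) ≤ e * 1 := mul_le_mul_of_nonneg_left a3 he0
      linarith
  refine (sum_le_sum key).trans ?_
  rw [sum_add_distrib, sum_add_distrib, ← mul_sum]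
  have b1 : ∑ p ∈ TT w z, ((p : ℝ) ^ 2)⁻¹ ≤ (w : ℝ)⁻¹ := by
    have h1 : ∑ p ∈ TT w z, ((p : ℝ) ^ 2)⁻¹ ≤ ∑ n ∈ Ioc w z, ((n : ℝ) ^ 2)⁻¹ := by
      apply sum_le_sum_of_subset_of_nonneg
      · intro p hp
        have := mem_TT.1 hp
        rw [mem_Ioc]; omega
      · intro _ _ _; positivity
    have h2 := sum_Ioc_inv_sq_le_sub (α := ℝ) (k := w) (n := z) (by omega) hwz
    have h3 : (0 : ℝ) ≤ (z : ℝ)⁻¹ := by positivity
    linarith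
  have b2 : ∑ p ∈ TT w z, (if (p : ℤ) ∣ Q.coeff e then (M : ℝ) / w else 0) ≤ k * (M / w) := by
    rw [← sum_filter, sum_const, nsmul_eq_mul]
    apply mul_le_mul_of_nonneg_right _ (by positivity)
    have h1 := card_pf z w (Q.coeff e) hc k hk
    have h2 : (TT w z).filter (fun p : ℕ => (p : ℤ) ∣ Q.coeff e) =
        (pz z).filter (fun p : ℕ => w < p ∧ (p : ℤ) ∣ Q.coeff e) := by
      unfold TT
      rw [filter_filter]
    rw [h2]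
    exact_mod_cast h1
  have b3 : ∑ _p ∈ TT w z, (e : ℝ) ≤ e * z := by
    rw [sum_const, nsmul_eq_mul, mul_comm]
    apply mul_le_mul_of_nonneg_left _ (Nat.cast_nonneg _)
    exact_mod_cast (card_le_card (filter_subset _ _)).trans (card_pz_le z)
  have b4 : (4 + 2 * (e : ℝ)) * (M : ℝ) * ∑ p ∈ TT w z, ((p : ℝ) ^ 2)⁻¹ ≤ (4 + 2 * e) * M * (w : ℝ)⁻¹ :=
    mul_le_mul_of_nonneg_left b1 (by positivity)
  have e' : (M : ℝ) * (4 + 2 * e + k) / w + e * z = (4 + 2 * e) * M * (w : ℝ)⁻¹ + k * (M / w) + e * z := by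
    rw [div_eq_mul_inv, div_eq_mul_inv]; ring
  rw [e']
  linarith

set_option maxHeartbeats 2000000 in
theorem gcf (g : ℤ[X]) (hg : Gd g) : S_GCF g := by
  intro C D E u V hE hu
  obtain ⟨hd2, hlc⟩ := hg
  obtain ⟨e, he⟩ : ∃ e, e = g.natDegree - 1 := ⟨_, rfl⟩
  have he1 : 1 ≤ e := by omega
  have her : (1 : ℝ) ≤ e := by exact_mod_cast he1
  obtain ⟨A1, hA1⟩ : ∃ A1 : ℕ, A1 = g.natDegree * g.leadingCoeff.natAbs := ⟨_, rfl⟩
  have hA1p : 1 ≤ A1 := by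
    rw [hA1]
    exact Nat.one_le_iff_ne_zero.2 (Nat.mul_ne_zero (by omega) (Int.natAbs_ne_zero.2 hlc.ne'))
  have hA1r : (1 : ℝ) ≤ A1 := by exact_mod_cast hA1p
  obtain ⟨C0, K0, hC0, hK0, hcor⟩ := cor_gen
  obtain ⟨Cv, hCv, hVl⟩ := Vz_log
  obtain ⟨Xz, hXz⟩ := params_z E (4 * C0 + 2 + K0) hE
  have hur : (0 : ℝ) < u := by exact_mod_cast hu
  have hEr : (1 : ℝ) ≤ E := by exact_mod_cast hE
  obtain ⟨G0, hG0⟩ : ∃ G0 : ℝ, G0 = Cv * E ^ 2 := ⟨_, rfl⟩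
  have hG01 : 1 ≤ G0 := by
    rw [hG0]
    exact one_le_mul_of_one_le_of_one_le hCv (one_le_pow₀ hEr)
  have hG0p : 0 < G0 := by linarith
  have hev : ∀ᶠ X : ℕ in Filter.atTop, (10000 : ℝ) ≤ Real.log X ∧
      (18 * G0 ^ 3 * (4 + 2 * e + 2 * (A1 + D))) * Real.log (Real.log X) ^ (7 + V) ≤ Real.log X ^ (1 / (u : ℝ)) ∧
      (48 * G0 ^ 2) * Real.log (Real.log X) ^ (4 + V) ≤ Real.log X ^ (1 : ℝ) ∧
      (9 * e * G0 ^ 3) * Real.log (Real.log X) ^ (6 + V) ≤ Real.log X ^ (1 : ℝ) ∧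
      Real.log X ^ ((E + 1) * e) ≤ (X : ℝ) ^ (1 / 3 : ℝ) ∧
      4 * Real.log (Real.log X) ^ 0 ≤ Real.log X ^ (1 / (u : ℝ)) ∧
      Real.log X ^ 2 ≤ (X : ℝ) ^ (15 / 16 : ℝ) ∧ Xz ≤ X := by
    filter_upwards [evt_log_ge 10000, evt_ll (7 + V) (1 / (u : ℝ)) (18 * G0 ^ 3 * (4 + 2 * e + 2 * (A1 + D))) (by positivity),
      evt_ll (4 + V) 1 (48 * G0 ^ 2) (by norm_num), evt_ll (6 + V) 1 (9 * e * G0 ^ 3) (by norm_num),
      evt_log_pow ((E + 1) * e) (1 / 3) (by norm_num), evt_ll 0 (1 / (u : ℝ)) 4 (by positivity),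
      evt_log_pow 2 (15 / 16) (by norm_num), Filter.eventually_ge_atTop Xz] with X a1 a2 a3 a4 a5 a6 a7 a8
    exact ⟨a1, a2, a3, a4, a5, a6, a7, a8⟩
  obtain ⟨X1, hX1⟩ := Filter.eventually_atTop.1 hev
  refine ⟨X1, fun X hX m₀ M i j hij hj hM _ => ?_⟩
  obtain ⟨hl, e1, e2, e3, e4, e5, e6, hXXz⟩ := hX1 X hX
  obtain ⟨hm1, -, hz3, -, b, hCtb, hb1, hpb, hzb⟩ := hXz X hXXz
  clear hev hX1 hX hXz
  have hX0 : (0 : ℝ) < X := by
    rcases Nat.eq_zero_or_pos X with h | h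
    · rw [h] at hl; norm_num at hl
    · exact_mod_cast h
  have hX1 : (1 : ℝ) ≤ X := by
    have : 0 < X := by exact_mod_cast hX0
    exact_mod_cast this
  obtain ⟨l, hld⟩ : ∃ l, l = Real.log X := ⟨_, rfl⟩
  rw [← hld] at hl e1 e2 e3 e4 e5 e6 hm1 hz3 hpb hzb hj ⊢
  rw [Real.rpow_one] at e2 e3
  rw [pow_zero, mul_one] at e5
  obtain ⟨z, hz⟩ : ∃ z, z = ⌊l ^ E⌋₊ := ⟨_, rfl⟩
  obtain ⟨w, hw⟩ : ∃ w, w = ⌊l ^ (1 / (u : ℝ))⌋₊ := ⟨_, rfl⟩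
  rw [← hz] at hz3 hzb
  rw [← hz, ← hw]
  obtain ⟨ℓ, hm⟩ : ∃ ℓ, ℓ = Real.log l := ⟨_, rfl⟩
  rw [← hm] at hm1 e1 e2 e3 ⊢
  have hl0 : 0 < l := by linarith
  have hl1 : 1 ≤ l := by linarith
  have hm0 : 0 < ℓ := by linarith
  have hzle : (z : ℝ) ≤ l ^ E := by rw [hz]; exact Nat.floor_le (by positivity)
  have hzr : (3 : ℝ) ≤ z := by exact_mod_cast hz3
  have hwle : (w : ℝ) ≤ l ^ (1 / (u : ℝ)) := by rw [hw]; exact Nat.floor_le (by positivity)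
  have hwge : l ^ (1 / (u : ℝ)) ≤ 2 * w := by
    have h3 := Nat.lt_floor_add_one (l ^ (1 / (u : ℝ)))
    rw [← hw] at h3
    linarith
  have hw2 : 2 ≤ w := by
    have h3 : (2 : ℝ) ≤ w := by linarith
    exact_mod_cast h3
  have hlu : l ^ (1 / (u : ℝ)) ≤ l := by
    calc l ^ (1 / (u : ℝ)) ≤ l ^ (1 : ℝ) := by
          apply Real.rpow_le_rpow_of_exponent_le hl1
          rw [div_le_one hur]; exact_mod_cast hu
      _ = l := Real.rpow_one l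
  have hwz : w ≤ z := by
    rw [hw, hz]
    apply Nat.floor_mono
    exact hlu.trans (le_self_pow₀ hl1 (by omega))
  have hwr : (2 : ℝ) ≤ w := by exact_mod_cast hw2
  have hw0 : (0 : ℝ) < w := by linarith
  -- the sieve products
  obtain ⟨G, hG⟩ : ∃ G, G = (Vz z)⁻¹ := ⟨_, rfl⟩
  have hGp : 0 < G := by rw [hG]; exact inv_pos.2 (Vz_pos z)
  have hGle : G ≤ G0 * ℓ ^ 2 := by
    rw [hG, hG0]
    refine (hVl z hz3).trans ?_
    have h3 : Real.log z ≤ E * ℓ := by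
      have := Real.log_le_log (by linarith) hzle
      rwa [Real.log_pow, ← hm] at this
    have h4 : 0 ≤ Real.log z := Real.log_nonneg (by linarith)
    calc Cv * Real.log z ^ 2 ≤ Cv * (E * ℓ) ^ 2 := by gcongr
      _ = _ := by ring
  -- the number of the prime factors
  obtain ⟨Q, hQ⟩ : ∃ Q, Q = dif g i j := ⟨_, rfl⟩
  have hQe : Q.coeff e = g.natDegree * g.leadingCoeff * ((i : ℤ) - j) := by
    rw [hQ, he]
    exact dif_coeff g i j (by omega)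
  have hQd : Q.natDegree ≤ e := by
    rw [natDegree_le_iff_coeff_eq_zero]
    intro n hn
    rw [hQ]
    exact dif_coeff_hi g i j n (by omega)
  have hQa : (Q.coeff e).natAbs = A1 * (j - i) := by
    rw [hQe, Int.natAbs_mul, Int.natAbs_mul, Int.natAbs_natCast, hA1]
    congr 1
    omega
  have hQ0 : Q.coeff e ≠ 0 := by
    rw [← Int.natAbs_ne_zero, hQa]
    exact Nat.mul_ne_zero (by omega) (by omega)
  obtain ⟨k, hk⟩ : ∃ k, k = Nat.log 2 (Q.coeff e).natAbs := ⟨_, rfl⟩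
  have hkle : (k : ℝ) ≤ 2 * (A1 + D * ℓ) := by
    have h3 : (2 : ℝ) ^ k ≤ A1 * l ^ D := by
      have h4 : 2 ^ k ≤ A1 * (j - i) := by
        rw [hk, ← hQa]; exact Nat.pow_log_le_self 2 (Int.natAbs_ne_zero.2 hQ0)
      have h5 : (2 : ℝ) ^ k ≤ A1 * j := by
        have : 2 ^ k ≤ A1 * j := h4.trans (Nat.mul_le_mul_left _ (by omega))
        exact_mod_cast this
      exact h5.trans (mul_le_mul_of_nonneg_left hj (by linarith))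
    have h4 := Real.log_le_log (by positivity) h3
    rw [Real.log_mul (by positivity) (by positivity), Real.log_pow, Real.log_pow, ← hm] at h4
    have h9 : Real.log (A1 : ℝ) ≤ A1 := (Real.log_le_sub_one_of_pos (by linarith)).trans (by linarith)
    have h5 : (0.6 : ℝ) < Real.log 2 := by have := Real.log_two_gt_d9; linarith
    have h6 : (0 : ℝ) ≤ k := Nat.cast_nonneg _
    have h7 : (k : ℝ) * 0.6 ≤ k * Real.log 2 := mul_le_mul_of_nonneg_left h5.le h6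
    have h8 : 0 ≤ (D : ℝ) * ℓ := by positivity
    linarith
  have hk6 : (4 : ℝ) + 2 * e + k ≤ (4 + 2 * e + 2 * (A1 + D)) * ℓ := by
    have h8 : (4 + 2 * (e : ℝ) + 2 * (A1 + D)) * ℓ = (4 + 2 * e + 2 * A1) * ℓ + 2 * (D * ℓ) := by ring
    have h9 : (4 + 2 * (e : ℝ) + 2 * A1) * 1 ≤ (4 + 2 * e + 2 * A1) * ℓ :=
      mul_le_mul_of_nonneg_left hm1 (by positivity)
    rw [h8]
    linarith
  -- the error
  obtain ⟨Er, hEr'⟩ : ∃ Er, Er = (1 / 2 : ℝ) ^ b * (2 * X + 1) +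
        ((JJ z : ℝ) + 2) * ((z : ℝ) ^ (2 * (C0 * b)) * (K0 * (z : ℝ) ^ (2 * (C0 * b)))) := ⟨_, rfl⟩
  have hErle : Er ≤ 4 * X / l ^ 2 := by
    have hJ : ((JJ z : ℝ) + 2) ≤ z * z := by
      have h3 : ((JJ z : ℝ) + 2) ≤ 2 * z := by exact_mod_cast JJ_small z (by omega)
      nlinarith
    have hK : (K0 : ℝ) ≤ (z : ℝ) ^ K0 := by
      have h3 : K0 ≤ z ^ K0 := (Nat.lt_pow_self (by omega)).le
      exact_mod_cast h3
    have h3 : ((JJ z : ℝ) + 2) * ((z : ℝ) ^ (2 * (C0 * b)) * (K0 * (z : ℝ) ^ (2 * (C0 * b)))) ≤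
        (z : ℝ) ^ ((4 * C0 + 2 + K0) * b) := by
      calc ((JJ z : ℝ) + 2) * ((z : ℝ) ^ (2 * (C0 * b)) * (K0 * (z : ℝ) ^ (2 * (C0 * b))))
          ≤ (z * z) * ((z : ℝ) ^ (2 * (C0 * b)) * ((z : ℝ) ^ K0 * (z : ℝ) ^ (2 * (C0 * b)))) := by gcongr
        _ = (z : ℝ) ^ (4 * (C0 * b) + 2 + K0) := by
            rw [show 4 * (C0 * b) + 2 + K0 = 2 * (C0 * b) + 2 * (C0 * b) + K0 + 1 + 1 by ring]
            simp only [pow_succ, pow_add]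
            ring
        _ ≤ _ := by
            apply pow_le_pow_right₀ (by linarith)
            nlinarith
    have h4 : (X : ℝ) ^ (1 / 16 : ℝ) ≤ X / l ^ 2 := by
      rw [le_div_iff₀ (by positivity)]
      calc (X : ℝ) ^ (1 / 16 : ℝ) * l ^ 2 ≤ (X : ℝ) ^ (1 / 16 : ℝ) * (X : ℝ) ^ (15 / 16 : ℝ) := by gcongr
        _ = X := by rw [← Real.rpow_add hX0]; norm_num
    have h5 : (1 / 2 : ℝ) ^ b * (2 * X + 1) ≤ 1 / l ^ 2 * (3 * X) :=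
      mul_le_mul hpb (by linarith) (by positivity) (by positivity)
    have h6 : 4 * (X : ℝ) / l ^ 2 = 1 / l ^ 2 * (3 * X) + X / l ^ 2 := by ring
    rw [hEr', h6]
    linarith
  -- the sum
  have hsum : ∑ m ∈ Ioc m₀ (m₀ + M), |Run7.h285.G.cor g (fun y => ll z y - ll w y) X (m + i) (m + j)| ≤
      (2 * X + 1) * (G ^ 3 * (M * (4 + 2 * e + k) / w + e * z)) + M * (4 * G ^ 2 * Er) := by
    have h1 : ∀ m ∈ Ioc m₀ (m₀ + M), |Run7.h285.G.cor g (fun y => ll z y - ll w y) X (m + i) (m + j)| ≤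
        (2 * X + 1) * G ^ 3 * sg (g.eval ((m + i : ℕ) : ℤ) - g.eval ((m + j : ℕ) : ℤ)) w z + 4 * G ^ 2 * Er := by
      intro m _
      have h2 := hcor b (by omega) w z hw2 hwz X (g.eval ((m + i : ℕ) : ℤ)) (g.eval ((m + j : ℕ) : ℤ))
      rw [← hG, ← hEr'] at h2
      unfold Run7.h285.G.cor
      refine h2.trans (le_of_eq ?_)
      ring
    refine (sum_le_sum h1).trans ?_
    rw [sum_add_distrib, ← mul_sum, sum_const, Nat.card_Ioc, nsmul_eq_mul, show m₀ + M - m₀ = M by omega]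
    have h2 := sum_sg' w z hw2 hwz (fun m => g.eval ((m + i : ℕ) : ℤ) - g.eval ((m + j : ℕ) : ℤ)) Q e hQd hQ0
      (fun m => by rw [hQ, dif_eval]; push_cast; rfl) k hk.symm.le m₀ M
    have h3 := mul_le_mul_of_nonneg_left h2 (show (0 : ℝ) ≤ (2 * X + 1) * G ^ 3 by positivity)
    linarith
  refine hsum.trans ?_
  have hM0 : (0 : ℝ) ≤ M := Nat.cast_nonneg _
  have hG3 : G ^ 3 ≤ G0 ^ 3 * ℓ ^ 6 := by
    calc G ^ 3 ≤ (G0 * ℓ ^ 2) ^ 3 := by gcongr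
      _ = _ := by ring
  have hG2 : G ^ 2 ≤ G0 ^ 2 * ℓ ^ 4 := by
    calc G ^ 2 ≤ (G0 * ℓ ^ 2) ^ 2 := by gcongr
      _ = _ := by ring
  have hVp : 0 < ℓ ^ V := by positivity
  have t1 : (2 * (X : ℝ) + 1) * (G ^ 3 * (M * (4 + 2 * e + k) / w)) ≤ 1 / 3 * (X * M / ℓ ^ V) := by
    have h1 : 9 * (G ^ 3 * (4 + 2 * e + k)) * ℓ ^ V ≤ w := by
      have h2 : G ^ 3 * (4 + 2 * e + k) ≤ G0 ^ 3 * ℓ ^ 6 * ((4 + 2 * e + 2 * (A1 + D)) * ℓ) :=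
        mul_le_mul hG3 hk6 (by positivity) (by positivity)
      calc 9 * (G ^ 3 * (4 + 2 * e + k)) * ℓ ^ V ≤ 9 * (G0 ^ 3 * ℓ ^ 6 * ((4 + 2 * e + 2 * (A1 + D)) * ℓ)) * ℓ ^ V := by gcongr
        _ = (18 * G0 ^ 3 * (4 + 2 * e + 2 * (A1 + D))) * ℓ ^ (7 + V) / 2 := by rw [pow_add]; ring
        _ ≤ l ^ (1 / (u : ℝ)) / 2 := by linarith
        _ ≤ w := by linarith
    have h2 : (2 * (X : ℝ) + 1) ≤ 3 * X := by linarith
    rw [mul_div_assoc', mul_div_assoc', mul_div_assoc', div_le_div_iff₀ hw0 hVp]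
    calc (2 * (X : ℝ) + 1) * (G ^ 3 * (M * (4 + 2 * e + k))) * ℓ ^ V ≤ (3 * X) * (G ^ 3 * (M * (4 + 2 * e + k))) * ℓ ^ V := by gcongr
      _ = X * M / 3 * (9 * (G ^ 3 * (4 + 2 * e + k)) * ℓ ^ V) := by ring
      _ ≤ X * M / 3 * w := mul_le_mul_of_nonneg_left h1 (by positivity)
      _ = _ := by ring
  have t2 : (2 * (X : ℝ) + 1) * (G ^ 3 * (e * z)) ≤ 1 / 3 * (X * M / ℓ ^ V) := by
    have h1 : 9 * (G ^ 3 * (e * z)) * ℓ ^ V ≤ M := by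
      calc 9 * (G ^ 3 * (e * z)) * ℓ ^ V ≤ 9 * (G0 ^ 3 * ℓ ^ 6 * (e * l ^ E)) * ℓ ^ V := by gcongr
        _ = (9 * e * G0 ^ 3) * ℓ ^ (6 + V) * l ^ E := by rw [pow_add]; ring
        _ ≤ l * l ^ E := by gcongr
        _ = l ^ (E + 1) := by rw [pow_succ]; ring
        _ ≤ M := by
            have h5 : (l ^ (E + 1)) ^ e ≤ (M : ℝ) ^ e := by
              rw [← pow_mul, he]
              rw [he] at e4
              exact e4.trans hM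
            exact (pow_le_pow_iff_left₀ (by positivity) (Nat.cast_nonneg _) (by omega)).1 h5
    have h2 : (2 * (X : ℝ) + 1) ≤ 3 * X := by linarith
    rw [mul_div_assoc', le_div_iff₀ hVp]
    calc (2 * (X : ℝ) + 1) * (G ^ 3 * (e * z)) * ℓ ^ V ≤ (3 * X) * (G ^ 3 * (e * z)) * ℓ ^ V := by gcongr
      _ = X / 3 * (9 * (G ^ 3 * (e * z)) * ℓ ^ V) := by ring
      _ ≤ X / 3 * M := mul_le_mul_of_nonneg_left h1 (by positivity)
      _ = _ := by ring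
  have t3 : (M : ℝ) * (4 * G ^ 2 * Er) ≤ 1 / 3 * (X * M / ℓ ^ V) := by
    have h1 : 48 * G ^ 2 * ℓ ^ V ≤ l ^ 2 := by
      calc 48 * G ^ 2 * ℓ ^ V ≤ 48 * (G0 ^ 2 * ℓ ^ 4) * ℓ ^ V := by gcongr
        _ = (48 * G0 ^ 2) * ℓ ^ (4 + V) := by rw [pow_add]; ring
        _ ≤ l := e2
        _ ≤ l ^ 2 := le_self_pow₀ hl1 (by norm_num)
    have h2 : (M : ℝ) * (4 * G ^ 2 * Er) ≤ M * (4 * G ^ 2 * (4 * X / l ^ 2)) := by gcongr
    refine h2.trans ?_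
    rw [mul_div_assoc', mul_div_assoc', mul_div_assoc', div_le_div_iff₀ (by positivity) hVp]
    calc (M : ℝ) * (4 * G ^ 2 * (4 * X)) * ℓ ^ V = X * M / 3 * (48 * G ^ 2 * ℓ ^ V) := by ring
      _ ≤ X * M / 3 * l ^ 2 := mul_le_mul_of_nonneg_left h1 (by positivity)
      _ = _ := by ring
  have e7 : (2 * (X : ℝ) + 1) * (G ^ 3 * (M * (4 + 2 * e + k) / w + e * z)) =
      (2 * (X : ℝ) + 1) * (G ^ 3 * (M * (4 + 2 * e + k) / w)) + (2 * (X : ℝ) + 1) * (G ^ 3 * (e * z)) := by ring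
  rw [e7]
  linarith

end Run7.h212.G
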